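import Mathlib

set_option autoImplicit false

open Polynomial

noncomputable section

namespace Pool.Agent.Results.MP_ce47b3_al.RetractNotFree

/-- The multiset of variables (with multiplicity) of a nonassociative monomial. -/
def letters : FreeMagma ℕ → Multiset ℕ
  | .of x => {x}
  | .mul a b => letters a + letters b

/-- An element of the free nonassociative algebra is multilinear when, for some `n`, each monomial
occurring in it contains each of the variables `0, …, n - 1` exactly once and no other variable. -/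
def IsMultilinear (k : Type) [Field k] (f : FreeNonUnitalNonAssocAlgebra k ℕ) : Prop :=
  ∃ n : ℕ, ∀ m ∈ f.coeff.support, letters m = Multiset.range n

section defs

variable (k : Type) [Field k] (I : Set (FreeNonUnitalNonAssocAlgebra k ℕ))

/-- `A` satisfies all the identities in `I`. -/
def Sat (A : Type) [NonUnitalNonAssocRing A] [Module k A] [IsScalarTower k A A]
    [SMulCommClass k A A] : Prop :=
  ∀ f ∈ I, ∀ v : ℕ → A, FreeNonUnitalNonAssocAlgebra.lift k v f = 0

/-- `F` is the free algebra on `η : X → F` of the variety defined by `I`. -/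
def IsFreeOn (F : Type) [NonUnitalNonAssocRing F] [Module k F] [IsScalarTower k F F]
    [SMulCommClass k F F] (X : Type) (η : X → F) : Prop :=
  Sat k I F ∧
  ∀ (A : Type) [NonUnitalNonAssocRing A] [Module k A] [IsScalarTower k A A]
    [SMulCommClass k A A], Sat k I A → ∀ v : X → A, ∃! φ : F →ₙₐ[k] A, ∀ x, φ (η x) = v x

/-- `F` is a free algebra, on some set, of the variety defined by `I`. -/
def IsVFree (F : Type) [NonUnitalNonAssocRing F] [Module k F] [IsScalarTower k F F]
    [SMulCommClass k F F] : Prop :=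
  ∃ (X : Type) (η : X → F), IsFreeOn k I F X η

end defs

/-! ### Existence of free algebras -/

section free

variable (k : Type) [Field k] (I : Set (FreeNonUnitalNonAssocAlgebra k ℕ)) (X : Type)

abbrev Fr := FreeNonUnitalNonAssocAlgebra k X

def N : Submodule k (Fr k X) where
  carrier := {a | ∀ (A : Type) [NonUnitalNonAssocRing A] [Module k A] [IsScalarTower k A A]
    [SMulCommClass k A A], Sat k I A → ∀ v : X → A, FreeNonUnitalNonAssocAlgebra.lift k v a = 0}
  add_mem' := by
    intro a b ha hb A _ _ _ _ hA v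
    rw [map_add, ha A hA v, hb A hA v, add_zero]
  zero_mem' := by
    intro A _ _ _ _ hA v
    rw [map_zero]
  smul_mem' := by
    intro c a ha A _ _ _ _ hA v
    rw [map_smul, ha A hA v, smul_zero]

def Q : Type := Fr k X ⧸ N k I X

instance : AddCommGroup (Q k I X) := inferInstanceAs (AddCommGroup (Fr k X ⧸ N k I X))
instance : Module k (Q k I X) := inferInstanceAs (Module k (Fr k X ⧸ N k I X))

def qmk : Fr k X →ₗ[k] Q k I X := (N k I X).mkQ

lemma qmk_surj : Function.Surjective (qmk k I X) := Submodule.mkQ_surjective _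

lemma qmk_eq (a b : Fr k X) : qmk k I X a = qmk k I X b ↔ a - b ∈ N k I X :=
  Submodule.Quotient.eq _

def qmul : Q k I X → Q k I X → Q k I X :=
  Quotient.lift₂ (fun a b => qmk k I X (a * b)) (by
    intro a b a' b' ha hb
    have ha' : a - a' ∈ N k I X := (Submodule.quotientRel_def _).mp ha
    have hb' : b - b' ∈ N k I X := (Submodule.quotientRel_def _).mp hb
    change qmk k I X (a * b) = qmk k I X (a' * b')
    rw [qmk_eq]
    intro A _ _ _ _ hA v
    have h1 := ha' A hA v
    have h2 := hb' A hA v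
    rw [map_sub, sub_eq_zero] at h1 h2
    rw [map_sub, map_mul, map_mul, h1, h2, sub_self])

instance : Mul (Q k I X) := ⟨qmul k I X⟩

lemma qmk_mul (a b : Fr k X) : qmk k I X (a * b) = qmk k I X a * qmk k I X b := rfl

instance : NonUnitalNonAssocRing (Q k I X) :=
  { (inferInstance : AddCommGroup (Q k I X)) with
    mul := (· * ·)
    left_distrib := by
      intro a b c
      obtain ⟨a, rfl⟩ := qmk_surj k I X a
      obtain ⟨b, rfl⟩ := qmk_surj k I X b
      obtain ⟨c, rfl⟩ := qmk_surj k I X c
      rw [← map_add, ← qmk_mul, ← qmk_mul, ← qmk_mul, mul_add, map_add]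
    right_distrib := by
      intro a b c
      obtain ⟨a, rfl⟩ := qmk_surj k I X a
      obtain ⟨b, rfl⟩ := qmk_surj k I X b
      obtain ⟨c, rfl⟩ := qmk_surj k I X c
      rw [← map_add, ← qmk_mul, ← qmk_mul, ← qmk_mul, add_mul, map_add]
    zero_mul := by
      intro a
      obtain ⟨a, rfl⟩ := qmk_surj k I X a
      rw [← map_zero (qmk k I X), ← qmk_mul, zero_mul]
    mul_zero := by
      intro a
      obtain ⟨a, rfl⟩ := qmk_surj k I X a
      rw [← map_zero (qmk k I X), ← qmk_mul, mul_zero] }

instance : IsScalarTower k (Q k I X) (Q k I X) := ⟨by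
  intro c a b
  obtain ⟨a, rfl⟩ := qmk_surj k I X a
  obtain ⟨b, rfl⟩ := qmk_surj k I X b
  change (c • qmk k I X a) * qmk k I X b = c • (qmk k I X a * qmk k I X b)
  rw [← map_smul, ← qmk_mul, ← qmk_mul, ← map_smul, smul_mul_assoc]⟩

instance : SMulCommClass k (Q k I X) (Q k I X) := ⟨by
  intro c a b
  obtain ⟨a, rfl⟩ := qmk_surj k I X a
  obtain ⟨b, rfl⟩ := qmk_surj k I X b
  change c • (qmk k I X a * qmk k I X b) = qmk k I X a * (c • qmk k I X b)
  rw [← map_smul, ← qmk_mul, ← qmk_mul, ← map_smul, mul_smul_comm]⟩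

def qhom : Fr k X →ₙₐ[k] Q k I X where
  toFun := qmk k I X
  map_smul' := fun c x => map_smul (qmk k I X) c x
  map_zero' := map_zero (qmk k I X)
  map_add' := map_add (qmk k I X)
  map_mul' := qmk_mul k I X

lemma qhom_apply (a : Fr k X) : qhom k I X a = qmk k I X a := rfl

def qη (x : X) : Q k I X := qhom k I X (FreeNonUnitalNonAssocAlgebra.of k x)

lemma Q_sat : Sat k I (Q k I X) := by
  intro f hf w
  have hs : ∀ n, ∃ a : Fr k X, qhom k I X a = w n := fun n => qmk_surj k I X (w n)
  choose w' hw' using hs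
  have h1 : FreeNonUnitalNonAssocAlgebra.lift k w =
      (qhom k I X).comp (FreeNonUnitalNonAssocAlgebra.lift k w') := by
    apply FreeNonUnitalNonAssocAlgebra.hom_ext
    intro n
    rw [FreeNonUnitalNonAssocAlgebra.lift_of_apply, NonUnitalAlgHom.comp_apply,
      FreeNonUnitalNonAssocAlgebra.lift_of_apply, hw']
  rw [h1, NonUnitalAlgHom.comp_apply, qhom_apply, ← map_zero (qmk k I X), qmk_eq, sub_zero]
  intro A _ _ _ _ hA v
  have h2 : (FreeNonUnitalNonAssocAlgebra.lift k v).comp (FreeNonUnitalNonAssocAlgebra.lift k w')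
      = FreeNonUnitalNonAssocAlgebra.lift k
        (fun n => FreeNonUnitalNonAssocAlgebra.lift k v (w' n)) := by
    apply FreeNonUnitalNonAssocAlgebra.hom_ext
    intro n
    rw [FreeNonUnitalNonAssocAlgebra.lift_of_apply, NonUnitalAlgHom.comp_apply,
      FreeNonUnitalNonAssocAlgebra.lift_of_apply]
  rw [← NonUnitalAlgHom.comp_apply, h2]
  exact hA f hf _

lemma Q_free : IsFreeOn k I (Q k I X) X (qη k I X) := by
  refine ⟨Q_sat k I X, ?_⟩
  intro A _ _ _ _ hA v
  let φl : Q k I X →ₗ[k] A := (N k I X).liftQ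
    (FreeNonUnitalNonAssocAlgebra.lift k v : Fr k X →ₗ[k] A) (by
      intro a ha
      exact ha A hA v)
  have hφl : ∀ a, φl (qmk k I X a) = FreeNonUnitalNonAssocAlgebra.lift k v a := fun a => rfl
  let φ : Q k I X →ₙₐ[k] A :=
    { toFun := φl
      map_smul' := fun c x => map_smul φl c x
      map_zero' := map_zero φl
      map_add' := map_add φl
      map_mul' := by
        intro a b
        obtain ⟨a, rfl⟩ := qmk_surj k I X a
        obtain ⟨b, rfl⟩ := qmk_surj k I X b
        rw [← qmk_mul, hφl, hφl, hφl, map_mul] }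
  refine ⟨φ, ?_, ?_⟩
  · intro x
    change φl (qmk k I X _) = _
    rw [hφl, FreeNonUnitalNonAssocAlgebra.lift_of_apply]
  · intro ψ hψ
    have h1 : ψ.comp (qhom k I X) = φ.comp (qhom k I X) := by
      apply FreeNonUnitalNonAssocAlgebra.hom_ext
      intro x
      rw [NonUnitalAlgHom.comp_apply, NonUnitalAlgHom.comp_apply]
      have h2 : φ (qhom k I X (FreeNonUnitalNonAssocAlgebra.of k x)) = v x := by
        change φl (qmk k I X _) = _
        rw [hφl, FreeNonUnitalNonAssocAlgebra.lift_of_apply]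
      rw [h2]
      exact hψ x
    apply NonUnitalAlgHom.ext
    intro a
    obtain ⟨a, rfl⟩ := qmk_surj k I X a
    exact DFunLike.congr_fun h1 a

end free

/-! ### The variety -/

section variety

variable (k : Type) [Field k]

abbrev o (n : ℕ) : FreeNonUnitalNonAssocAlgebra k ℕ := FreeNonUnitalNonAssocAlgebra.of k n

def I0 : Set (FreeNonUnitalNonAssocAlgebra k ℕ) :=
  {(o k 0 * o k 1) * (o k 2 * o k 3), o k 0 * ((o k 1 * o k 2) * o k 3),
    (o k 0 * (o k 1 * o k 2)) * o k 3}

lemma o_eq (n : ℕ) : o k n = MonoidAlgebra.single (FreeMagma.of n) 1 := rfl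

lemma I0_multi : ∀ f ∈ I0 k, IsMultilinear k f := by
  have key : ∀ m : FreeMagma ℕ, letters m = Multiset.range 4 →
      IsMultilinear k (MonoidAlgebra.single m 1) := by
    intro m hm
    refine ⟨4, ?_⟩
    intro m' hm'
    rw [MonoidAlgebra.coeff_single] at hm'
    have := Finsupp.support_single_subset hm'
    rw [Finset.mem_singleton] at this
    rw [this, hm]
  rintro f (rfl | rfl | rfl)
  · simp only [o_eq, MonoidAlgebra.single_mul_single, mul_one]
    apply key
    decide
  · simp only [o_eq, MonoidAlgebra.single_mul_single, mul_one]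
    apply key
    decide
  · simp only [o_eq, MonoidAlgebra.single_mul_single, mul_one]
    apply key
    decide

lemma sat_iff (A : Type) [NonUnitalNonAssocRing A] [Module k A] [IsScalarTower k A A]
    [SMulCommClass k A A] : Sat k (I0 k) A ↔
      ((∀ a b c d : A, (a * b) * (c * d) = 0) ∧ (∀ a b c d : A, a * ((b * c) * d) = 0) ∧
        (∀ a b c d : A, (a * (b * c)) * d = 0)) := by
  constructor
  · intro h
    have hv : ∀ a b c d : A, ∃ v : ℕ → A, v 0 = a ∧ v 1 = b ∧ v 2 = c ∧ v 3 = d := by
      intro a b c d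
      exact ⟨fun n => if n = 0 then a else if n = 1 then b else if n = 2 then c else d,
        by simp, by simp, by simp, by simp⟩
    refine ⟨?_, ?_, ?_⟩
    · intro a b c d
      obtain ⟨v, h0, h1, h2, h3⟩ := hv a b c d
      have := h _ (Or.inl rfl) v
      simpa only [map_mul, FreeNonUnitalNonAssocAlgebra.lift_of_apply, h0, h1, h2, h3] using this
    · intro a b c d
      obtain ⟨v, h0, h1, h2, h3⟩ := hv a b c d
      have := h _ (Or.inr (Or.inl rfl)) v
      simpa only [map_mul, FreeNonUnitalNonAssocAlgebra.lift_of_apply, h0, h1, h2, h3] using this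
    · intro a b c d
      obtain ⟨v, h0, h1, h2, h3⟩ := hv a b c d
      have := h _ (Or.inr (Or.inr rfl)) v
      simpa only [map_mul, FreeNonUnitalNonAssocAlgebra.lift_of_apply, h0, h1, h2, h3] using this
  · rintro ⟨h1, h2, h3⟩ f (rfl | rfl | rfl) v
    · simp only [map_mul, FreeNonUnitalNonAssocAlgebra.lift_of_apply, h1]
    · simp only [map_mul, FreeNonUnitalNonAssocAlgebra.lift_of_apply, h2]
    · simp only [map_mul, FreeNonUnitalNonAssocAlgebra.lift_of_apply, h3]

end variety

/-! ### The algebra `B` -/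

section algB

variable (k : Type) [Field k]

def B : Type := k × k[X] × k[X]

instance : AddCommGroup (B k) := inferInstanceAs (AddCommGroup (k × k[X] × k[X]))
instance : Module k (B k) := inferInstanceAs (Module k (k × k[X] × k[X]))

variable {k}

def ca (x : B k) : k := Prod.fst x
def cf (x : B k) : k[X] := Prod.fst (Prod.snd x)
def cg (x : B k) : k[X] := Prod.snd (Prod.snd x)
def mk (a : k) (f g : k[X]) : B k := (a, f, g)

@[simp] lemma ca_mk (a : k) (f g : k[X]) : ca (mk a f g) = a := rfl
@[simp] lemma cf_mk (a : k) (f g : k[X]) : cf (mk a f g) = f := rfl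
@[simp] lemma cg_mk (a : k) (f g : k[X]) : cg (mk a f g) = g := rfl
@[simp] lemma ca_add (x y : B k) : ca (x + y) = ca x + ca y := rfl
@[simp] lemma cf_add (x y : B k) : cf (x + y) = cf x + cf y := rfl
@[simp] lemma cg_add (x y : B k) : cg (x + y) = cg x + cg y := rfl
@[simp] lemma ca_sub (x y : B k) : ca (x - y) = ca x - ca y := rfl
@[simp] lemma cf_sub (x y : B k) : cf (x - y) = cf x - cf y := rfl
@[simp] lemma cg_sub (x y : B k) : cg (x - y) = cg x - cg y := rfl
@[simp] lemma ca_zero : ca (0 : B k) = 0 := rfl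
@[simp] lemma cf_zero : cf (0 : B k) = 0 := rfl
@[simp] lemma cg_zero : cg (0 : B k) = 0 := rfl
@[simp] lemma ca_smul (c : k) (x : B k) : ca (c • x) = c * ca x := rfl
@[simp] lemma cf_smul (c : k) (x : B k) : cf (c • x) = C c * cf x := by
  rw [← smul_eq_C_mul]; rfl
@[simp] lemma cg_smul (c : k) (x : B k) : cg (c • x) = C c * cg x := by
  rw [← smul_eq_C_mul]; rfl

lemma B_ext {x y : B k} (h1 : ca x = ca y) (h2 : cf x = cf y) (h3 : cg x = cg y) : x = y :=
  Prod.ext h1 (Prod.ext h2 h3)

instance : Mul (B k) := ⟨fun x y =>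
  mk 0 (C (ca x * ca y) * (1 + X) + C (ca x) * X * cf y)
    (C (ca y) * (C ((cf x).coeff 0) + X * cg x))⟩

@[simp] lemma ca_mul (x y : B k) : ca (x * y) = 0 := rfl
@[simp] lemma cf_mul (x y : B k) : cf (x * y) = C (ca x * ca y) * (1 + X) + C (ca x) * X * cf y :=
  rfl
@[simp] lemma cg_mul (x y : B k) : cg (x * y) = C (ca y) * (C ((cf x).coeff 0) + X * cg x) := rfl

instance : NonUnitalNonAssocRing (B k) :=
  { (inferInstance : AddCommGroup (B k)) with
    mul := (· * ·)
    left_distrib := by
      intro a b c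
      apply B_ext
      · simp
      · simp only [cf_mul, cf_add, ca_add, mul_add, C_add, C_mul]; ring
      · simp only [cg_mul, cg_add, ca_add, mul_add, C_add, C_mul]; ring
    right_distrib := by
      intro a b c
      apply B_ext
      · simp
      · simp only [cf_mul, cf_add, ca_add, mul_add, C_add, C_mul]; ring
      · simp only [cg_mul, cg_add, ca_add, cf_add, mul_add, C_add, C_mul, coeff_add]; ring
    zero_mul := by
      intro a
      apply B_ext
      · simp
      · simp
      · simp
    mul_zero := by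
      intro a
      apply B_ext
      · simp
      · simp
      · simp }

instance : IsScalarTower k (B k) (B k) := ⟨by
  intro c a b
  apply B_ext
  · simp
  · simp only [smul_eq_mul, cf_mul, cf_smul, ca_smul, C_mul]; ring
  · simp only [smul_eq_mul, cg_mul, cg_smul, ca_smul, cf_smul, C_mul, coeff_C_mul]; ring⟩

instance : SMulCommClass k (B k) (B k) := ⟨by
  intro c a b
  apply B_ext
  · simp
  · simp only [smul_eq_mul, cf_mul, cf_smul, ca_smul, C_mul]; ring
  · simp only [smul_eq_mul, cg_mul, cg_smul, ca_smul, C_mul]; ring⟩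

lemma B_sat : Sat k (I0 k) (B k) := by
  rw [sat_iff]
  refine ⟨?_, ?_, ?_⟩
  · intro a b c d
    apply B_ext <;> simp
  · intro a b c d
    apply B_ext <;> simp
  · intro a b c d
    apply B_ext <;> simp

def bb : B k := mk 1 0 0
def ee : B k := mk 0 1 0

end algB

/-! ### homomorphisms out of `B` -/

section homB

variable {k : Type} [Field k] {A : Type} [NonUnitalNonAssocRing A] [Module k A]
  [IsScalarTower k A A] [SMulCommClass k A A]

variable (k A) in
def P : Submodule k A := Submodule.span k {p | ∃ x y : A, p = x * y}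

lemma mul_mem_P (x y : A) : x * y ∈ P k A := Submodule.subset_span ⟨x, y, rfl⟩

lemma P_ii (h : ∀ a b c d : A, a * ((b * c) * d) = 0) (p : A) (hp : p ∈ P k A) (x y : A) :
    x * (p * y) = 0 := by
  induction hp using Submodule.span_induction with
  | mem p hp => obtain ⟨a, b, rfl⟩ := hp; exact h _ _ _ _
  | zero => rw [zero_mul, mul_zero]
  | add p q _ _ hp hq => rw [add_mul, mul_add, hp, hq, add_zero]
  | smul c p _ hp => rw [smul_mul_assoc, mul_smul_comm, hp, smul_zero]

lemma P_iii (h : ∀ a b c d : A, (a * (b * c)) * d = 0) (p : A) (hp : p ∈ P k A) (x y : A) :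
    (x * p) * y = 0 := by
  induction hp using Submodule.span_induction with
  | mem p hp => obtain ⟨a, b, rfl⟩ := hp; exact h _ _ _ _
  | zero => rw [mul_zero, zero_mul]
  | add p q _ _ hp hq => rw [mul_add, add_mul, hp, hq, add_zero]
  | smul c p _ hp => rw [mul_smul_comm, smul_mul_assoc, hp, smul_zero]

lemma P_i (h : ∀ a b c d : A, (a * b) * (c * d) = 0) (p q : A) (hp : p ∈ P k A)
    (hq : q ∈ P k A) : p * q = 0 := by
  induction hp using Submodule.span_induction with
  | mem p hp =>
    obtain ⟨a, b, rfl⟩ := hp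
    induction hq using Submodule.span_induction with
    | mem q hq => obtain ⟨c, d, rfl⟩ := hq; exact h _ _ _ _
    | zero => rw [mul_zero]
    | add p q _ _ hp hq => rw [mul_add, hp, hq, add_zero]
    | smul c p _ hp => rw [mul_smul_comm, hp, smul_zero]
  | zero => rw [zero_mul]
  | add p q _ _ hp hq => rw [add_mul, hp, hq, add_zero]
  | smul c p _ hp => rw [smul_mul_assoc, hp, smul_zero]

/-- left and right multiplication as endomorphisms -/
def Lo (u : A) : Module.End k A := LinearMap.mulLeft k u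
def Ro (u : A) : Module.End k A := LinearMap.mulRight k u

lemma Lo_apply (u x : A) : Lo (k := k) u x = u * x := rfl
lemma Ro_apply (u x : A) : Ro (k := k) u x = x * u := rfl

lemma poly_decomp (f : k[X]) : f = C (f.coeff 0) + X * f.divX := by
  have := Polynomial.divX_mul_X_add f
  rw [mul_comm X, add_comm]
  exact this.symm

lemma aeval_mem (T : Module.End k A) (hT : ∀ x, T x ∈ P k A) (w : A) (hw : w ∈ P k A) (f : k[X]) :
    aeval T f w ∈ P k A := by
  rw [poly_decomp f]
  simp only [map_add, map_mul, aeval_C, aeval_X]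
  rw [LinearMap.add_apply, Module.algebraMap_end_apply, Module.End.mul_apply]
  exact (P k A).add_mem ((P k A).smul_mem _ hw) (hT _)

def σfun (u w : A) (x : B k) : A :=
  ca x • u + (aeval (Lo (k := k) u) (cf x) w + Ro (k := k) u (aeval (Ro (k := k) u) (cg x) w))

lemma expand (a b : k) (u p q : A) : (a • u + p) * (b • u + q) = (a * b) • (u * u) + a • (u * q)
    + b • (p * u) + p * q := by
  rw [add_mul, mul_add, mul_add, smul_mul_assoc, smul_mul_assoc, mul_smul_comm, mul_smul_comm,
    smul_smul]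
  abel

lemma σ_mul (hA : Sat k (I0 k) A) (u w : A) (hw : w ∈ P k A) (huw : u * u = w + u * w)
    (x y : B k) : σfun u w (x * y) = σfun u w x * σfun u w y := by
  rw [sat_iff] at hA
  obtain ⟨h1, h2, h3⟩ := hA
  have hL : ∀ x, Lo (k := k) u x ∈ P k A := fun x => mul_mem_P _ _
  have hR : ∀ x, Ro (k := k) u x ∈ P k A := fun x => mul_mem_P _ _
  have hp1 : ∀ f : k[X], aeval (Lo (k := k) u) f w ∈ P k A := aeval_mem _ hL w hw
  have hp2 : ∀ f : k[X], aeval (Ro (k := k) u) f w ∈ P k A := aeval_mem _ hR w hw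
  have hpp : ∀ x : B k, (aeval (Lo (k := k) u) (cf x) w + Ro (k := k) u (aeval (Ro (k := k) u) (cg x) w)) ∈ P k A :=
    fun x => (P k A).add_mem (hp1 _) (hR _)
  unfold σfun
  set p := (aeval (Lo (k := k) u) (cf x) w + Ro (k := k) u (aeval (Ro (k := k) u) (cg x) w)) with hp
  set q := (aeval (Lo (k := k) u) (cf y) w + Ro (k := k) u (aeval (Ro (k := k) u) (cg y) w)) with hq
  have hpq : p * q = 0 := P_i h1 p q (hpp x) (hpp y)
  have huq : u * q = u * aeval (Lo (k := k) u) (cf y) w := by
    rw [hq, mul_add, Ro_apply, P_ii h2 _ (hp2 _), add_zero]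
  have hfu : (aeval (Lo (k := k) u) (cf x) w) * u = (cf x).coeff 0 • (w * u) := by
    conv_lhs => rw [poly_decomp (cf x)]
    simp only [map_add, map_mul, aeval_C, aeval_X]
    rw [LinearMap.add_apply, Module.algebraMap_end_apply, Module.End.mul_apply, Lo_apply,
      add_mul, P_iii h3 _ (hp1 _), add_zero, smul_mul_assoc]
  have hpu : p * u = (cf x).coeff 0 • (w * u) + ((aeval (Ro (k := k) u) (cg x) w) * u) * u := by
    rw [hp, add_mul, hfu, Ro_apply]
  have e1 : (ca x • u + p) * (ca y • u + q) = (ca x * ca y) • (w + u * w) + ca x • (u * aeval (Lo (k := k) u) (cf y) w)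
      + ca y • ((cf x).coeff 0 • (w * u) + ((aeval (Ro (k := k) u) (cg x) w) * u) * u) := by
    rw [expand, hpq, huw, huq, hpu, add_zero]
  rw [e1]
  rw [ca_mul, zero_smul, zero_add, cf_mul, cg_mul]
  simp only [map_add, map_mul, aeval_C, aeval_X, map_one, LinearMap.add_apply, Module.End.mul_apply,
    Module.algebraMap_end_apply, Lo_apply, Ro_apply, Module.End.one_apply, smul_mul_assoc, add_mul,
    smul_add, mul_smul_comm, smul_smul]

def σ (hA : Sat k (I0 k) A) (u w : A) (hw : w ∈ P k A) (huw : u * u = w + u * w) :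
    B k →ₙₐ[k] A where
  toFun := σfun u w
  map_smul' := by
    intro c x
    unfold σfun
    rw [ca_smul, cf_smul, cg_smul]
    simp only [map_mul, aeval_C, Module.End.mul_apply, Module.algebraMap_end_apply, map_smul,
      smul_add, mul_smul]
    rfl
  map_zero' := by
    unfold σfun
    simp
  map_add' := by
    intro x y
    unfold σfun
    rw [ca_add, cf_add, cg_add, add_smul, map_add, map_add, LinearMap.add_apply,
      LinearMap.add_apply, map_add]
    abel
  map_mul' := σ_mul hA u w hw huw

lemma map_aeval_L {A' : Type} [NonUnitalNonAssocRing A'] [Module k A']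
    [IsScalarTower k A' A'] [SMulCommClass k A' A'] (ψ : A →ₙₐ[k] A') (u w : A) (f : k[X]) :
    ψ (aeval (Lo (k := k) u) f w) = aeval (Lo (k := k) (ψ u)) f (ψ w) := by
  induction f using Polynomial.induction_on' with
  | add p q hp hq => rw [map_add, map_add, LinearMap.add_apply, LinearMap.add_apply, map_add, hp, hq]
  | monomial n a =>
    rw [← C_mul_X_pow_eq_monomial]
    simp only [map_mul, aeval_C, map_pow, aeval_X, Module.End.mul_apply, Module.algebraMap_end_apply,
      map_smul]
    congr 1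
    induction n with
    | zero => simp
    | succ n ih =>
      rw [pow_succ', pow_succ', Module.End.mul_apply, Module.End.mul_apply, Lo_apply, Lo_apply,
        map_mul, ih]

lemma map_aeval_R {A' : Type} [NonUnitalNonAssocRing A'] [Module k A']
    [IsScalarTower k A' A'] [SMulCommClass k A' A'] (ψ : A →ₙₐ[k] A') (u w : A) (f : k[X]) :
    ψ (aeval (Ro (k := k) u) f w) = aeval (Ro (k := k) (ψ u)) f (ψ w) := by
  induction f using Polynomial.induction_on' with
  | add p q hp hq => rw [map_add, map_add, LinearMap.add_apply, LinearMap.add_apply, map_add, hp, hq]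
  | monomial n a =>
    rw [← C_mul_X_pow_eq_monomial]
    simp only [map_mul, aeval_C, map_pow, aeval_X, Module.End.mul_apply, Module.algebraMap_end_apply,
      map_smul]
    congr 1
    induction n with
    | zero => simp
    | succ n ih =>
      rw [pow_succ', pow_succ', Module.End.mul_apply, Module.End.mul_apply, Ro_apply, Ro_apply,
        map_mul, ih]

lemma map_σfun {A' : Type} [NonUnitalNonAssocRing A'] [Module k A']
    [IsScalarTower k A' A'] [SMulCommClass k A' A'] (ψ : A →ₙₐ[k] A') (u w : A) (x : B k) :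
    ψ (σfun u w x) = σfun (ψ u) (ψ w) x := by
  unfold σfun
  rw [map_add, map_add, map_smul, map_aeval_L, Ro_apply, map_mul, map_aeval_R, Ro_apply]

end homB

section selfB

variable {k : Type} [Field k]

lemma aeval_Lb (f : k[X]) : aeval (Lo (k := k) (bb : B k)) f ee = mk 0 f 0 := by
  induction f using Polynomial.induction_on' with
  | add p q hp hq =>
    rw [map_add, LinearMap.add_apply, hp, hq]
    apply B_ext <;> simp
  | monomial n a =>
    have h : ∀ n : ℕ, ((Lo (k := k) (bb : B k)) ^ n) ee = mk 0 (X ^ n) 0 := by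
      intro n
      induction n with
      | zero => simp [ee]
      | succ n ih =>
        rw [pow_succ', Module.End.mul_apply, ih, Lo_apply]
        apply B_ext
        · simp
        · simp [bb, pow_succ']
        · simp
    rw [← C_mul_X_pow_eq_monomial]
    simp only [map_mul, aeval_C, map_pow, aeval_X, Module.End.mul_apply, Module.algebraMap_end_apply]
    rw [h]
    apply B_ext <;> simp

lemma aeval_Rb (f : k[X]) :
    Ro (k := k) (bb : B k) (aeval (Ro (k := k) (bb : B k)) f ee) = mk 0 0 f := by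
  induction f using Polynomial.induction_on' with
  | add p q hp hq =>
    rw [map_add, LinearMap.add_apply, map_add, hp, hq]
    apply B_ext <;> simp
  | monomial n a =>
    have h : ∀ n : ℕ, Ro (k := k) (bb : B k) (((Ro (k := k) (bb : B k)) ^ n) ee) = mk 0 0 (X ^ n) := by
      intro n
      induction n with
      | zero =>
        rw [Ro_apply]
        apply B_ext <;> simp [ee, bb]
      | succ n ih =>
        rw [pow_succ', Module.End.mul_apply, ih, Ro_apply]
        apply B_ext
        · simp
        · simp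
        · simp [bb, pow_succ']
    rw [← C_mul_X_pow_eq_monomial]
    simp only [map_mul, aeval_C, map_pow, aeval_X, Module.End.mul_apply, Module.algebraMap_end_apply,
      map_smul]
    rw [h]
    apply B_ext <;> simp

lemma σ_self (x : B k) : σfun (bb : B k) ee x = x := by
  unfold σfun
  rw [aeval_Lb, aeval_Rb]
  apply B_ext <;> simp [bb]

/-- the zero multiplication algebra on `k` -/
def Z (k : Type) : Type := k

instance : AddCommGroup (Z k) := inferInstanceAs (AddCommGroup k)
instance : Module k (Z k) := inferInstanceAs (Module k k)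

instance : NonUnitalNonAssocRing (Z k) :=
  { (inferInstance : AddCommGroup (Z k)) with
    mul := fun _ _ => 0
    left_distrib := fun _ _ _ => (add_zero (0 : Z k)).symm
    right_distrib := fun _ _ _ => (add_zero (0 : Z k)).symm
    zero_mul := fun _ => rfl
    mul_zero := fun _ => rfl }

lemma Z_mul (x y : Z k) : x * y = 0 := rfl
def toK (z : Z k) : k := z
def ofK (z : k) : Z k := z
lemma toK_smul (c : k) (z : Z k) : toK (c • z) = c * toK z := rfl
lemma toK_ofK (z : k) : toK (ofK z) = z := rfl

instance : IsScalarTower k (Z k) (Z k) := ⟨by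
  intro c a b
  rw [smul_eq_mul, smul_eq_mul, Z_mul, Z_mul, smul_zero]⟩
instance : SMulCommClass k (Z k) (Z k) := ⟨by
  intro c a b
  rw [smul_eq_mul, smul_eq_mul, Z_mul, Z_mul, smul_zero]⟩

lemma Z_sat : Sat k (I0 k) (Z k) := by
  rw [sat_iff]
  exact ⟨fun _ _ _ _ => rfl, fun _ _ _ _ => rfl, fun _ _ _ _ => rfl⟩

def αhom : B k →ₙₐ[k] Z k where
  toFun := ca
  map_smul' := fun _ _ => rfl
  map_zero' := rfl
  map_add' := fun _ _ => rfl
  map_mul' := fun _ _ => rfl

lemma homZ (φ : B k →ₙₐ[k] Z k) (x : B k) : φ x = ca x • φ bb := by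
  have h1 : ∀ g : k[X], φ (mk 0 0 g) = 0 := by
    intro g
    have : mk 0 0 g = mk 0 (C (g.coeff 0)) g.divX * bb := by
      apply B_ext
      · simp
      · simp
      · simp only [cg_mul, cg_mk, cf_mk, bb, ca_mk, coeff_C_zero, C_1, one_mul]
        exact poly_decomp g
    rw [this, map_mul, Z_mul]
  have h2 : ∀ f : k[X], φ (mk 0 f 0) = 0 := by
    intro f
    have : mk 0 f 0 = (f.coeff 0) • (bb * bb) + bb * mk 0 (f.divX - C (f.coeff 0)) 0 := by
      apply B_ext
      · simp
      · simp only [cf_add, cf_smul, cf_mul, cf_mk, bb, ca_mk, C_0, C_1, mul_one, one_mul, mul_zero,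
          add_zero, zero_mul, zero_add]
        conv_lhs => rw [poly_decomp f]
        ring
      · simp [bb]
    rw [this, map_add, map_smul, map_mul, map_mul, Z_mul, Z_mul, smul_zero, add_zero]
  have h3 : x = ca x • bb + (mk 0 (cf x) 0 + mk 0 0 (cg x)) := by
    apply B_ext <;> simp [bb]
  conv_lhs => rw [h3]
  rw [map_add, map_add, map_smul, h1, h2, add_zero, add_zero]

/-- second component -/
def tt (x : B k) : k[X] := C ((cf x).coeff 0) + X * cg x

lemma tt_add (x y : B k) : tt (x + y) = tt x + tt y := by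
  unfold tt
  simp only [cf_add, cg_add, coeff_add, C_add]; ring
lemma tt_smul (c : k) (x : B k) : tt (c • x) = C c * tt x := by
  unfold tt
  simp only [cf_smul, cg_smul, coeff_C_mul, C_mul]; ring
lemma tt_mul (x y : B k) : tt (x * y) = C (ca x * ca y) + C (ca y) * X * tt x := by
  unfold tt
  rw [cf_mul, cg_mul]
  have : (C (ca x * ca y) * (1 + X) + C (ca x) * X * cf y).coeff 0 = ca x * ca y := by
    simp [mul_assoc, coeff_C_mul]
  rw [this]; ring

/-- the subalgebra containing a given element -/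
def S1 (c : B k) (hc : ca c ≠ 0) : NonUnitalSubalgebra k (B k) where
  carrier := {x | (∃ p, cf x = C (ca x / ca c) * cf c + p * (C (ca c ^ 2) * (1 + X) + C (ca c) * X * cf c)) ∧
    (∃ q, tt x = C (ca x / ca c) * tt c + q * (C (ca c ^ 2) + C (ca c) * X * tt c))}
  add_mem' := by
    rintro x y ⟨⟨p, hp⟩, ⟨q, hq⟩⟩ ⟨⟨p', hp'⟩, ⟨q', hq'⟩⟩
    refine ⟨⟨p + p', ?_⟩, ⟨q + q', ?_⟩⟩
    · rw [cf_add, hp, hp', ca_add, add_div, C_add]; ring
    · rw [tt_add, hq, hq', ca_add, add_div, C_add]; ring
  zero_mem' := by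
    refine ⟨⟨0, ?_⟩, ⟨0, ?_⟩⟩
    · simp
    · simp [tt]
  smul_mem' := by
    rintro a x ⟨⟨p, hp⟩, ⟨q, hq⟩⟩
    refine ⟨⟨C a * p, ?_⟩, ⟨C a * q, ?_⟩⟩
    · rw [cf_smul, hp, ca_smul, mul_div_assoc, C_mul]; ring
    · rw [tt_smul, hq, ca_smul, mul_div_assoc, C_mul]; ring
  mul_mem' := by
    rintro x y ⟨⟨p, hp⟩, ⟨q, hq⟩⟩ ⟨⟨p', hp'⟩, ⟨q', hq'⟩⟩
    have e : ca x * ca y = (ca x * ca y / ca c ^ 2) * ca c ^ 2 := by field_simp
    have e2 : ca y = ca y / ca c ^ 2 * ca c * ca c := by field_simp
    refine ⟨⟨C (ca x * ca y / ca c ^ 2) + C (ca x) * X * p', ?_⟩,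
      ⟨C (ca x * ca y / ca c ^ 2) + C (ca y) * X * q, ?_⟩⟩
    · rw [cf_mul, hp', ca_mul, zero_div, C_0, zero_mul, zero_add]
      have e1 : C (ca x * ca y) = C (ca x * ca y / ca c ^ 2) * C (ca c ^ 2) := by
        rw [← C_mul, ← e]
      have e3 : C (ca x) * C (ca y / ca c) = C (ca x * ca y / ca c ^ 2) * C (ca c) := by
        rw [← C_mul, ← C_mul]; congr 1; field_simp
      rw [e1]
      linear_combination X * cf c * e3
    · rw [tt_mul, hq, ca_mul, zero_div, C_0, zero_mul, zero_add]
      have e1 : C (ca x * ca y) = C (ca x * ca y / ca c ^ 2) * C (ca c ^ 2) := by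
        rw [← C_mul, ← e]
      have e3 : C (ca y) * C (ca x / ca c) = C (ca x * ca y / ca c ^ 2) * C (ca c) := by
        rw [← C_mul, ← C_mul]; congr 1; field_simp
      rw [e1]
      linear_combination X * tt c * e3

lemma mem_S1 (c : B k) (hc : ca c ≠ 0) : c ∈ S1 c hc := by
  refine ⟨⟨0, ?_⟩, ⟨0, ?_⟩⟩
  · rw [div_self hc, C_1]; ring
  · rw [div_self hc, C_1]; ring

lemma unit_form (a : k) (h : k[X]) (p : k[X]) (hp : 1 = p * (C a + X * h)) : h = 0 := by
  have hu : IsUnit (C a + X * h) := IsUnit.of_mul_eq_one_right p hp.symm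
  obtain ⟨r, hr, hr2⟩ := Polynomial.isUnit_iff.mp hu
  have h1 : X * h = C (r - a) := by
    rw [C_sub, hr2]; ring
  by_contra hne
  have h2 : (X * h).natDegree = 1 + h.natDegree := by
    rw [natDegree_mul X_ne_zero hne, natDegree_X]
  rw [h1, natDegree_C] at h2
  omega

lemma not_mem (c : B k) (hc : ca c ≠ 0) : (ee : B k) ∉ S1 c hc := by
  rintro ⟨⟨p, hp⟩, ⟨q, hq⟩⟩
  have e1 : cf (ee : B k) = 1 := rfl
  have e2 : ca (ee : B k) = 0 := rfl
  have e3 : tt (ee : B k) = 1 := by simp [tt, ee]
  rw [e1, e2, zero_div, C_0, zero_mul, zero_add] at hp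
  rw [e3, e2, zero_div, C_0, zero_mul, zero_add] at hq
  have h1 := unit_form (ca c ^ 2) (C (ca c ^ 2) + C (ca c) * cf c) p (by
    rw [hp]; ring)
  have h2 := unit_form (ca c ^ 2) (C (ca c) * tt c) q (by
    rw [hq]; ring)
  have hC : C (ca c) ≠ 0 := by
    rw [Ne, C_eq_zero]; exact hc
  have h3 : tt c = 0 := (mul_eq_zero.mp h2).resolve_left hC
  have h4 : (cf c).coeff 0 = 0 := by
    have := congrArg (fun p : k[X] => p.coeff 0) h3
    simpa [tt] using this
  have h5 := congrArg (fun p : k[X] => p.coeff 0) h1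
  simp only [coeff_add, coeff_C_zero, coeff_C_mul, h4, mul_zero, add_zero, coeff_zero] at h5
  exact hc (pow_eq_zero_iff (by norm_num) |>.mp h5)

lemma B_not_free : ¬ IsVFree k (I0 k) (B k) := by
  classical
  rintro ⟨Y, η, -, hfree⟩
  -- nonempty
  by_cases hY : Nonempty Y
  swap
  · obtain ⟨φ, _, huniq⟩ := hfree (Z k) Z_sat (fun _ => 0)
    have h1 := huniq αhom (fun y => absurd ⟨y⟩ hY)
    have h2 := huniq 0 (fun y => absurd ⟨y⟩ hY)
    have h3 : αhom (bb : B k) = (0 : B k →ₙₐ[k] Z k) bb := by rw [h1, h2]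
    have h4 : (1 : k) = 0 := h3
    exact one_ne_zero h4
  obtain ⟨y0⟩ := hY
  have hca : ∀ y, ca (η y) ≠ 0 := by
    intro y h0
    obtain ⟨φ, hφ, _⟩ := hfree (Z k) Z_sat (fun _ => ofK (1 : k))
    have h1 := hφ y
    have h2 : φ (η y) = 0 := by rw [homZ, h0, zero_smul]
    rw [h2] at h1
    have h3 : (1 : k) = 0 := (congrArg toK h1).symm
    exact one_ne_zero h3
  have hsub : ∀ y, y = y0 := by
    intro y
    by_contra hne
    obtain ⟨φ, hφ, _⟩ := hfree (Z k) Z_sat (fun z => ofK (if z = y0 then (1 : k) else (0 : k)))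
    have h1 : φ (η y0) = ofK (1 : k) := by rw [hφ]; simp
    have h2 : φ (η y) = ofK (0 : k) := by rw [hφ]; simp [hne]
    rw [homZ] at h1 h2
    have h2' : ca (η y) * toK (φ bb) = 0 := congrArg toK h2
    have h1' : ca (η y0) * toK (φ bb) = 1 := congrArg toK h1
    rcases mul_eq_zero.mp h2' with h | h
    · exact hca y h
    · rw [h, mul_zero] at h1'; exact zero_ne_one h1'
  set c := η y0 with hcdef
  have hc : ca c ≠ 0 := hca y0
  let S := S1 c hc
  have hS : Sat k (I0 k) S := by
    rw [sat_iff]
    obtain ⟨h1, h2, h3⟩ := (sat_iff k (B k)).mp B_sat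
    refine ⟨?_, ?_, ?_⟩
    · intro a b c d; apply Subtype.ext; exact h1 _ _ _ _
    · intro a b c d; apply Subtype.ext; exact h2 _ _ _ _
    · intro a b c d; apply Subtype.ext; exact h3 _ _ _ _
  obtain ⟨φ, hφ, _⟩ := hfree S hS (fun _ => ⟨c, mem_S1 c hc⟩)
  let incl : S →ₙₐ[k] B k := NonUnitalSubalgebraClass.subtype S
  obtain ⟨ψ, _, huniq⟩ := hfree (B k) B_sat η
  have h1 := huniq (incl.comp φ) (by
    intro y
    rw [NonUnitalAlgHom.comp_apply, hφ y, hsub y]
    rfl)
  have h2 := huniq (NonUnitalAlgHom.id k (B k)) (fun y => rfl)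
  have h3 : incl (φ ee) = ee := by
    have : (incl.comp φ) ee = (NonUnitalAlgHom.id k (B k)) ee := by rw [h1, h2]
    exact this
  apply not_mem c hc
  have h4 : incl (φ ee) ∈ S := (φ ee).2
  rw [h3] at h4
  exact h4

end selfB

/-- Over every field `k` there is a variety of linear `k`-algebras defined by multilinear
identities, and a retract of a free algebra of the variety which is not free in the variety. -/
theorem result : ∀ (k : Type) [Field k],
    ∃ I : Set (FreeNonUnitalNonAssocAlgebra k ℕ), (∀ f ∈ I, IsMultilinear k f) ∧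
      ∃ (F : Type) (_ : NonUnitalNonAssocRing F) (_ : Module k F) (_ : IsScalarTower k F F)
        (_ : SMulCommClass k F F), IsVFree k I F ∧
        ∃ (R : NonUnitalSubalgebra k F) (π : F →ₙₐ[k] F),
          (∀ x : F, π x ∈ R) ∧ (∀ x ∈ R, π x = x) ∧ ¬ IsVFree k I R := by
  intro k _
  refine ⟨I0 k, I0_multi k, Q k (I0 k) Bool, inferInstance, inferInstance, inferInstance,
    inferInstance, ⟨Bool, _, Q_free k (I0 k) Bool⟩, ?_⟩
  have hfree := Q_free k (I0 k) Bool
  have hsat := Q_sat k (I0 k) Bool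
  obtain ⟨h1, h2, h3⟩ := (sat_iff k (Q k (I0 k) Bool)).mp hsat
  set x : Q k (I0 k) Bool := qη k (I0 k) Bool true with hx
  set z : Q k (I0 k) Bool := qη k (I0 k) Bool false with hz
  obtain ⟨p, hp, _⟩ := hfree.2 (B k) B_sat (fun t => if t then bb else ee)
  have hpx : p x = bb := by rw [hx, hp]; rfl
  have hpz : p z = ee := by rw [hz, hp]; rfl
  set u := x - x * (x * x) + x * z + x * (x * z) with hu
  set w := x * x - x * (x * x) + x * (x * z) + (x * z) * x with hw
  have hwP : w ∈ P k (Q k (I0 k) Bool) := by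
    rw [hw]
    exact (P k _).add_mem ((P k _).add_mem ((P k _).sub_mem (mul_mem_P _ _) (mul_mem_P _ _))
      (mul_mem_P _ _)) (mul_mem_P _ _)
  have huw : u * u = w + u * w := by
    rw [hu, hw]
    simp only [mul_add, add_mul, mul_sub, sub_mul, h1, h2, h3]
    abel
  let s : B k →ₙₐ[k] Q k (I0 k) Bool := σ hsat u w hwP huw
  have hpu : p u = bb := by
    rw [hu]
    simp only [map_add, map_sub, map_mul, hpx, hpz]
    apply B_ext
    · simp [bb]
    · simp [bb, ee]; ring
    · simp [bb, ee]
  have hpw : p w = ee := by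
    rw [hw]
    simp only [map_add, map_sub, map_mul, hpx, hpz]
    apply B_ext
    · simp [bb, ee]
    · simp [bb, ee]; ring
    · simp [bb, ee]
  have hps : ∀ y, p (s y) = y := by
    intro y
    change p (σfun u w y) = y
    rw [map_σfun, hpu, hpw, σ_self]
  let R : NonUnitalSubalgebra k (Q k (I0 k) Bool) := NonUnitalAlgHom.range s
  refine ⟨R, s.comp p, ?_, ?_, ?_⟩
  · intro y
    exact ⟨p y, rfl⟩
  · rintro _ ⟨y, rfl⟩
    change s (p (s y)) = s y
    rw [hps]
  · rintro ⟨Y, η, _, hR⟩
    apply B_not_free (k := k)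
    let s' : B k →ₙₐ[k] R := NonUnitalAlgHom.codRestrict s R (fun y => ⟨y, rfl⟩)
    let p' : R →ₙₐ[k] B k := p.comp (NonUnitalSubalgebraClass.subtype R)
    have hs'p' : ∀ r, s' (p' r) = r := by
      rintro ⟨_, ⟨y, rfl⟩⟩
      apply Subtype.ext
      change s (p (s y)) = s y
      rw [hps]
    have hp's' : ∀ y, p' (s' y) = y := hps
    refine ⟨Y, fun y => p' (η y), B_sat, ?_⟩
    intro A _ _ _ _ hA v
    obtain ⟨φ, hφ, huniq⟩ := hR A hA v
    refine ⟨φ.comp s', ?_, ?_⟩
    · intro y
      rw [NonUnitalAlgHom.comp_apply, hs'p']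
      exact hφ y
    · intro ψ hψ
      have := huniq (ψ.comp p') (fun y => hψ y)
      rw [← this]
      apply NonUnitalAlgHom.ext
      intro b
      rw [NonUnitalAlgHom.comp_apply, NonUnitalAlgHom.comp_apply, hp's']

end Pool.Agent.Results.MP_ce47b3_al.RetractNotFree
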